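import Pool.Agent.Helper7.EC_E.GoalsS

/-!
# MP_ecc237_nt (S18871), PART E, packet KS: the sums over `m` for `k ≠ 0`
-/

set_option autoImplicit false

open MeasureTheory Filter Topology Set

namespace EC237.ZE.PkKS

open EC237 EC237.ZE

theorem sum_class (r k : ℤ) (f : ℤ → ℂ) (hf : ∀ m, ¬ InCl r (k, m) → f m = 0) :
    ∑' m, f m = ∑' j : ℤ, f (6 * j + (r - 3 * k)) := by
  have hinj : Function.Injective (fun j : ℤ => 6 * j + (r - 3 * k)) := by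
    intro a b h
    simp only at h
    omega
  refine (hinj.tsum_eq ?_).symm
  intro m hm
  have h1 : InCl r (k, m) := by
    by_contra h
    exact hm (hf m h)
  unfold InCl at h1
  refine ⟨(m + 3 * k - r) / 6, ?_⟩
  simp only at h1 ⊢
  omega

theorem alg1 (z a b c d D : ℂ) (hz : z ≠ 0) :
    2 / 3 * z ^ 3 * ((z⁻¹ * a + b) * (z⁻¹ * c + d)) / (z ^ 2 * D) =
      2 / 3 * (z⁻¹ * (a * c / D) + (a * d + b * c) / D + z * (b * d / D)) := by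
  rw [div_mul_eq_div_div]
  have h : 2 / 3 * z ^ 3 * ((z⁻¹ * a + b) * (z⁻¹ * c + d)) / z ^ 2 =
      2 / 3 * (z⁻¹ * (a * c) + (a * d + b * c) + z * (b * d)) := by
    field_simp
    ring
  rw [h]
  ring

theorem alg2 (z w Z p q D : ℂ) (hz : z ≠ 0) :
    2 / 3 * z ^ 3 * ((-(4 * w) * z⁻¹ * p) * (-(8 * w) * z⁻¹ * q + 4 * Z * z * p)) / (z ^ 2 * D) =
      2 / 3 * (32 * w ^ 2 * (z⁻¹ * (p * q / D)) - 16 * w * Z * (z * (p ^ 2 / D))) := by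
  rw [div_mul_eq_div_div]
  have h : 2 / 3 * z ^ 3 * ((-(4 * w) * z⁻¹ * p) * (-(8 * w) * z⁻¹ * q + 4 * Z * z * p)) / z ^ 2 =
      2 / 3 * (32 * w ^ 2 * (z⁻¹ * (p * q)) - 16 * w * Z * (z * p ^ 2)) := by
    field_simp
    ring
  rw [h]
  ring

theorem tz_eq (z : ℝ) (k j c : ℤ) : tz z (k, 6 * j + c) = (6 * (j:ℂ) + (c:ℂ)) / (z:ℂ) := by
  unfold tz
  push_cast
  ring

theorem Nz_eq (z : ℝ) (hz : (z:ℂ) ≠ 0) (k j c : ℤ) : ((Nz z (k, 6 * j + c) : ℝ) : ℂ) =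
    (z:ℂ) ^ 2 * (((6 * (j:ℂ) + (c:ℂ)) / (z:ℂ)) ^ 2 + (k:ℂ) ^ 2) := by
  unfold Nz
  push_cast
  field_simp

theorem tA_eq (z : ℝ) (hz : (z:ℂ) ≠ 0) (k j : ℤ) : tA z (k, 6 * j + (2 - 3 * k)) =
    2 / 3 * ((z:ℂ)⁻¹ * F1 k ((6 * (j:ℂ) + ((2 - 3 * k : ℤ):ℂ)) / z) +
      F2 k ((6 * (j:ℂ) + ((2 - 3 * k : ℤ):ℂ)) / z) +
      (z:ℂ) * F3 k ((6 * (j:ℂ) + ((2 - 3 * k : ℤ):ℂ)) / z)) := by
  have hcl : InCl 2 (k, 6 * j + (2 - 3 * k)) := by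
    unfold InCl
    simp only
    omega
  unfold tA
  rw [if_pos hcl]
  unfold yM vM
  rw [tz_eq, Nz_eq z hz]
  unfold F1 F2 F3
  exact alg1 _ _ _ _ _ _ hz

theorem tB_eq (z : ℝ) (hz : (z:ℂ) ≠ 0) (k j : ℤ) : tB z (k, 6 * j + (0 - 3 * k)) =
    2 / 3 * (32 * (w1:ℂ) ^ 2 * ((z:ℂ)⁻¹ * F4 k ((6 * (j:ℂ) + ((0 - 3 * k : ℤ):ℂ)) / z)) -
      16 * (w1:ℂ) * (Z13:ℂ) * ((z:ℂ) * F5 k ((6 * (j:ℂ) + ((0 - 3 * k : ℤ):ℂ)) / z))) := by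
  have hcl : InCl 0 (k, 6 * j + (0 - 3 * k)) := by
    unfold InCl
    simp only
    omega
  unfold tB
  rw [if_pos hcl]
  unfold e0M e2M
  rw [tz_eq, Nz_eq z hz]
  unfold F4 F5
  exact alg2 _ _ _ _ _ _ hz

theorem J_bound (F : ℂ → ℂ) (M : ℝ)
    (h : ∀ t : ℂ, |t.im| ≤ 1 / 2 → ‖F t‖ ≤ M / (1 + t.re ^ 2)) :
    ‖∫ t : ℝ, F (t:ℂ)‖ ≤ M * Real.pi := by
  have h1 : ‖∫ t : ℝ, F (t:ℂ)‖ ≤ ∫ t : ℝ, M * (1 + t ^ 2)⁻¹ := by
    refine norm_integral_le_of_norm_le (integrable_inv_one_add_sq.const_mul M) ?_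
    refine Filter.Eventually.of_forall fun t => ?_
    have h2 := h (t:ℂ) (by simp)
    simp only [Complex.ofReal_re] at h2
    rw [← div_eq_mul_inv]
    exact h2
  rw [integral_const_mul, integral_univ_inv_one_add_sq] at h1
  exact h1

theorem w1_nonneg : 0 ≤ w1 := by unfold w1; positivity

theorem Z13_nonneg : 0 ≤ Z13 := by unfold Z13; positivity

theorem thm (h1 : EC237.ZE.G_ST) (h2 : EC237.ZE.G_FB) : EC237.ZE.G_KS := by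
  obtain ⟨C0, hC0, hST⟩ := h1
  obtain ⟨C1, hC1, hFB⟩ := h2
  have hw := w1_nonneg
  have hZ := Z13_nonneg
  have hpi := Real.pi_pos
  refine ⟨C1 * Real.pi + 2 * C0 * C1 + 2 / 3 * (32 * w1 ^ 2 + 16 * w1 * Z13) * C0 * C1,
    by positivity, ?_⟩
  intro k hk
  have hk2 : (0:ℝ) < (k:ℝ) ^ 2 := by
    have : (k:ℝ) ≠ 0 := by exact_mod_cast hk
    positivity
  set M : ℝ := C1 / (k:ℝ) ^ 2 with hM
  have hM0 : 0 ≤ M := by positivity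
  have g1 := hFB k hk (F1 k) (by simp)
  have g2' := hFB k hk (F2 k) (by simp)
  have g3' := hFB k hk (F3 k) (by simp)
  have g4 := hFB k hk (F4 k) (by simp)
  have g5 := hFB k hk (F5 k) (by simp)
  have hJ : M * Real.pi ≤ (C1 * Real.pi + 2 * C0 * C1 +
      2 / 3 * (32 * w1 ^ 2 + 16 * w1 * Z13) * C0 * C1) / (k:ℝ) ^ 2 := by
    rw [hM, div_mul_eq_mul_div]
    refine div_le_div_of_nonneg_right ?_ hk2.le
    have : 0 ≤ 2 * C0 * C1 + 2 / 3 * (32 * w1 ^ 2 + 16 * w1 * Z13) * C0 * C1 := by positivity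
    linarith
  refine ⟨⟨(J_bound _ _ g1.2).trans hJ, (J_bound _ _ g2'.2).trans hJ,
    (J_bound _ _ g3'.2).trans hJ, (J_bound _ _ g4.2).trans hJ, (J_bound _ _ g5.2).trans hJ⟩, ?_⟩
  intro z hz
  have hz0 : (z:ℂ) ≠ 0 := by
    have : z ≠ 0 := by linarith
    exact_mod_cast this
  set E : ℝ := C0 * M * Real.exp (-(z / 4)) with hE
  have hE0 : 0 ≤ E := by positivity
  have nz : ‖(z:ℂ)‖ = z := by
    rw [Complex.norm_real, Real.norm_of_nonneg (by linarith)]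
  have nzi : ‖(z:ℂ)⁻¹‖ ≤ 1 := by
    rw [norm_inv, nz]
    exact inv_le_one_of_one_le₀ hz
  have nw : ‖(w1:ℂ)‖ = w1 := by
    rw [Complex.norm_real, Real.norm_of_nonneg hw]
  have nZ : ‖(Z13:ℂ)‖ = Z13 := by
    rw [Complex.norm_real, Real.norm_of_nonneg hZ]
  constructor
  · obtain ⟨s1, e1⟩ := hST (F1 k) M hM0 g1.1 g1.2 z hz (2 - 3 * k)
    obtain ⟨s2, e2⟩ := hST (F2 k) M hM0 g2'.1 g2'.2 z hz (2 - 3 * k)
    obtain ⟨s3, e3⟩ := hST (F3 k) M hM0 g3'.1 g3'.2 z hz (2 - 3 * k)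
    have hs : ∑' m : ℤ, tA z (k, m) = 2 / 3 *
        ((z:ℂ)⁻¹ * (∑' j : ℤ, F1 k ((6 * (j:ℂ) + ((2 - 3 * k : ℤ):ℂ)) / z)) +
          (∑' j : ℤ, F2 k ((6 * (j:ℂ) + ((2 - 3 * k : ℤ):ℂ)) / z)) +
          (z:ℂ) * (∑' j : ℤ, F3 k ((6 * (j:ℂ) + ((2 - 3 * k : ℤ):ℂ)) / z))) := by
      rw [sum_class 2 k (fun m => tA z (k, m)) (fun m hm => by unfold tA; rw [if_neg hm])]
      have := ((((s1.hasSum.mul_left (z:ℂ)⁻¹).add s2.hasSum).add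
        (s3.hasSum.mul_left (z:ℂ))).mul_left (2 / 3 : ℂ)).tsum_eq
      rw [← this]
      exact tsum_congr fun j => tA_eq z hz0 k j
    set A1 : ℂ := ∑' j : ℤ, F1 k ((6 * (j:ℂ) + ((2 - 3 * k : ℤ):ℂ)) / z)
    set A2 : ℂ := ∑' j : ℤ, F2 k ((6 * (j:ℂ) + ((2 - 3 * k : ℤ):ℂ)) / z)
    set A3 : ℂ := ∑' j : ℤ, F3 k ((6 * (j:ℂ) + ((2 - 3 * k : ℤ):ℂ)) / z)
    have e1' : ‖A1 - z / 6 * J1 k‖ ≤ E := e1
    have e2' : ‖A2 - z / 6 * J2 k‖ ≤ E := e2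
    have e3' : ‖A3 - z / 6 * J3 k‖ ≤ E := e3
    have hd : ∑' m : ℤ, tA z (k, m) - 1 / 9 * (J1 k + z * J2 k + (z:ℂ) ^ 2 * J3 k) =
        2 / 3 * ((z:ℂ)⁻¹ * (A1 - z / 6 * J1 k) + (A2 - z / 6 * J2 k) +
          (z:ℂ) * (A3 - z / 6 * J3 k)) := by
      rw [hs]
      field_simp
      ring
    rw [hd]
    have n1 : ‖(z:ℂ)⁻¹ * (A1 - z / 6 * J1 k)‖ ≤ E := by
      rw [norm_mul]
      calc ‖(z:ℂ)⁻¹‖ * ‖A1 - z / 6 * J1 k‖ ≤ 1 * E :=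
            mul_le_mul nzi e1' (norm_nonneg _) zero_le_one
        _ = E := one_mul E
    have n3 : ‖(z:ℂ) * (A3 - z / 6 * J3 k)‖ ≤ z * E := by
      rw [norm_mul, nz]
      exact mul_le_mul_of_nonneg_left e3' (by linarith)
    have n4 : ‖(2 / 3 : ℂ) * ((z:ℂ)⁻¹ * (A1 - z / 6 * J1 k) + (A2 - z / 6 * J2 k) +
          (z:ℂ) * (A3 - z / 6 * J3 k))‖ ≤ 2 / 3 * (E + E + z * E) := by
      rw [norm_mul]
      have : ‖(2 / 3 : ℂ)‖ = 2 / 3 := by norm_num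
      rw [this]
      refine mul_le_mul_of_nonneg_left ?_ (by norm_num)
      exact (norm_add_le _ _).trans (add_le_add ((norm_add_le _ _).trans (add_le_add n1 e2')) n3)
    refine n4.trans ?_
    have h5 : 2 / 3 * (E + E + z * E) ≤ 2 * z * E := by nlinarith
    refine h5.trans ?_
    rw [hE, hM, le_div_iff₀ hk2]
    have h6 : 2 * z * (C0 * (C1 / (k:ℝ) ^ 2) * Real.exp (-(z / 4))) * (k:ℝ) ^ 2 =
        2 * C0 * C1 * z * Real.exp (-(z / 4)) := by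
      field_simp
    rw [h6]
    have h7 : 0 ≤ (C1 * Real.pi + 2 / 3 * (32 * w1 ^ 2 + 16 * w1 * Z13) * C0 * C1) * z *
        Real.exp (-(z / 4)) := by
      have : 0 ≤ z := by linarith
      positivity
    linarith
  · obtain ⟨s4, e4⟩ := hST (F4 k) M hM0 g4.1 g4.2 z hz (0 - 3 * k)
    obtain ⟨s5, e5⟩ := hST (F5 k) M hM0 g5.1 g5.2 z hz (0 - 3 * k)
    have hs : ∑' m : ℤ, tB z (k, m) = 2 / 3 * (32 * (w1:ℂ) ^ 2 *
        ((z:ℂ)⁻¹ * (∑' j : ℤ, F4 k ((6 * (j:ℂ) + ((0 - 3 * k : ℤ):ℂ)) / z))) -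
          16 * (w1:ℂ) * (Z13:ℂ) *
          ((z:ℂ) * (∑' j : ℤ, F5 k ((6 * (j:ℂ) + ((0 - 3 * k : ℤ):ℂ)) / z)))) := by
      rw [sum_class 0 k (fun m => tB z (k, m)) (fun m hm => by unfold tB; rw [if_neg hm])]
      have := (((((s4.hasSum.mul_left (z:ℂ)⁻¹).mul_left (32 * (w1:ℂ) ^ 2)).sub
        ((s5.hasSum.mul_left (z:ℂ)).mul_left (16 * (w1:ℂ) * (Z13:ℂ))))).mul_left
        (2 / 3 : ℂ)).tsum_eq
      rw [← this]
      exact tsum_congr fun j => tB_eq z hz0 k j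
    set A4 : ℂ := ∑' j : ℤ, F4 k ((6 * (j:ℂ) + ((0 - 3 * k : ℤ):ℂ)) / z)
    set A5 : ℂ := ∑' j : ℤ, F5 k ((6 * (j:ℂ) + ((0 - 3 * k : ℤ):ℂ)) / z)
    have e4' : ‖A4 - z / 6 * J4 k‖ ≤ E := e4
    have e5' : ‖A5 - z / 6 * J5 k‖ ≤ E := e5
    have hd : ∑' m : ℤ, tB z (k, m) -
        1 / 9 * (32 * (w1:ℂ) ^ 2 * J4 k - 16 * (w1:ℂ) * (Z13:ℂ) * (z:ℂ) ^ 2 * J5 k) =
        2 / 3 * (32 * (w1:ℂ) ^ 2 * ((z:ℂ)⁻¹ * (A4 - z / 6 * J4 k)) -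
          16 * (w1:ℂ) * (Z13:ℂ) * ((z:ℂ) * (A5 - z / 6 * J5 k))) := by
      rw [hs]
      field_simp
      ring
    rw [hd]
    have n4 : ‖32 * (w1:ℂ) ^ 2 * ((z:ℂ)⁻¹ * (A4 - z / 6 * J4 k))‖ ≤ 32 * w1 ^ 2 * E := by
      rw [norm_mul, norm_mul, norm_mul, norm_pow, nw]
      have : ‖(32 : ℂ)‖ = 32 := by norm_num
      rw [this]
      refine mul_le_mul_of_nonneg_left ?_ (by positivity)
      calc ‖(z:ℂ)⁻¹‖ * ‖A4 - z / 6 * J4 k‖ ≤ 1 * E :=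
            mul_le_mul nzi e4' (norm_nonneg _) zero_le_one
        _ = E := one_mul E
    have n5 : ‖16 * (w1:ℂ) * (Z13:ℂ) * ((z:ℂ) * (A5 - z / 6 * J5 k))‖ ≤
        16 * w1 * Z13 * (z * E) := by
      rw [norm_mul, norm_mul, norm_mul, norm_mul, nw, nZ, nz]
      have : ‖(16 : ℂ)‖ = 16 := by norm_num
      rw [this]
      refine mul_le_mul_of_nonneg_left ?_ (by positivity)
      exact mul_le_mul_of_nonneg_left e5' (by linarith)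
    have n6 : ‖(2 / 3 : ℂ) * (32 * (w1:ℂ) ^ 2 * ((z:ℂ)⁻¹ * (A4 - z / 6 * J4 k)) -
          16 * (w1:ℂ) * (Z13:ℂ) * ((z:ℂ) * (A5 - z / 6 * J5 k)))‖ ≤
        2 / 3 * (32 * w1 ^ 2 * E + 16 * w1 * Z13 * (z * E)) := by
      rw [norm_mul]
      have : ‖(2 / 3 : ℂ)‖ = 2 / 3 := by norm_num
      rw [this]
      refine mul_le_mul_of_nonneg_left ?_ (by norm_num)
      exact (norm_sub_le _ _).trans (add_le_add n4 n5)
    refine n6.trans ?_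
    have h5 : 2 / 3 * (32 * w1 ^ 2 * E + 16 * w1 * Z13 * (z * E)) ≤
        2 / 3 * (32 * w1 ^ 2 + 16 * w1 * Z13) * (z * E) := by
      have a1 : E ≤ z * E := by nlinarith
      have a2 : 0 ≤ w1 ^ 2 := by positivity
      have a3 := mul_le_mul_of_nonneg_left a1 a2
      linarith
    refine h5.trans ?_
    rw [hE, hM, le_div_iff₀ hk2]
    have h6 : 2 / 3 * (32 * w1 ^ 2 + 16 * w1 * Z13) *
        (z * (C0 * (C1 / (k:ℝ) ^ 2) * Real.exp (-(z / 4)))) * (k:ℝ) ^ 2 =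
        2 / 3 * (32 * w1 ^ 2 + 16 * w1 * Z13) * C0 * C1 * z * Real.exp (-(z / 4)) := by
      field_simp
    rw [h6]
    have h7 : 0 ≤ (C1 * Real.pi + 2 * C0 * C1) * z * Real.exp (-(z / 4)) := by
      have : 0 ≤ z := by linarith
      positivity
    linarith

end EC237.ZE.PkKS
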