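import Pool.Agent.Helper7.EC_E.GoalsR

/-!
# MP_ecc237_nt (S18871), PART E, packet RED: the reduced form (E.1)
-/

set_option autoImplicit false

open MeasureTheory Filter Topology Set

namespace EC237.ZE.PkRED

open EC237 EC237.ZE

theorem q2_eq (w : ℂ) (v1 v2 v3 v4 : SV) :
    q2 w v1 v2 v3 v4 = cQ w v1 v2 v3 v4 + cQt w v1 v2 v3 v4 := by
  unfold q2 Qst cQ cQt
  rw [map_add]

theorem famA_q2 (w : ℂ) (p : Tri) : famA (q2 w) p = famA (cQ w) p + famA (cQt w) p := by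
  unfold famA
  split_ifs
  · exact q2_eq _ _ _ _ _
  · simp

theorem famB_q2 (w : ℂ) (p : Tri) : famB (q2 w) p = famB (cQ w) p + famB (cQt w) p := by
  unfold famB
  split_ifs
  · exact q2_eq _ _ _ _ _
  · simp

theorem thm (h1 : EC237.ZE.G_RA) (h2 : EC237.ZE.G_RAt) (h3 : EC237.ZE.G_RB)
    (h4 : EC237.ZE.G_RBt) : EC237.ZE.G_RED := by
  intro y hy
  obtain ⟨a1, a2, a3⟩ := h1 y hy
  obtain ⟨b1, b2⟩ := h2 y hy
  obtain ⟨c1, c2, c3⟩ := h3 y hy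
  obtain ⟨d1, d2, d3⟩ := h4 y hy
  have hA : eA y = fun s : ℤ × ℤ =>
      (if InCl 2 s then Yv (y:ℂ) s * Wv (y:ℂ) s / (Nn y s : ℂ) else 0) -
      (if InCl 2 s then Yv (y:ℂ) s * Yv (y:ℂ) s / (Nn y s : ℂ) else 0) := by
    funext s
    unfold eA
    split_ifs
    · ring
    · simp
  have hAs : Summable (eA y) := by
    rw [hA]
    exact a2.sub d2
  have hAt : ∑' s : ℤ × ℤ, eA y s =
      ∑' s : ℤ × ℤ, (if InCl 2 s then Yv (y:ℂ) s * Wv (y:ℂ) s / (Nn y s : ℂ) else 0) -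
      ∑' s : ℤ × ℤ, (if InCl 2 s then Yv (y:ℂ) s * Yv (y:ℂ) s / (Nn y s : ℂ) else 0) := by
    rw [hA]
    exact a2.tsum_sub d2
  refine ⟨hAs, c2, ?_⟩
  have e1 : ∑' p : Tri, famA (q2 (y:ℂ)) p =
      ∑' p : Tri, famA (cQ (y:ℂ)) p + ∑' p : Tri, famA (cQt (y:ℂ)) p := by
    rw [← a1.tsum_add b1]
    exact tsum_congr fun p => famA_q2 _ p
  have e2 : ∑' p : Tri, famB (q2 (y:ℂ)) p =
      ∑' p : Tri, famB (cQ (y:ℂ)) p + ∑' p : Tri, famB (cQt (y:ℂ)) p := by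
    rw [← c1.tsum_add d1]
    exact tsum_congr fun p => famB_q2 _ p
  unfold PhiB
  rw [e1, e2, b2, a3, c3, d3, hAt]
  ring

end EC237.ZE.PkRED
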